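import Pool.Agent.W307.QF.Stm
import Pool.Agent.W21.RK.SVproof

/-!
# QF-SVE: upper bound sieve for the values of polynomials in a residue class

Adapted from `Pool.Agent.W340.RT.SVR2`.
-/

set_option autoImplicit false

namespace Pool.Agent.W565.QF.SVE

open Finset Polynomial Pool.Agent.W262.RK Pool.Agent.W307.QF

/-! ### counting zeros modulo `p` -/

/-- the number of the `n < p` with a property of `n` modulo `p` -/
lemma card_range (p : ℕ) [NeZero p] (T : ZMod p → Prop) [DecidablePred T]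
    [DecidablePred fun n : ℕ => T (n : ZMod p)] :
    ((range p).filter (fun n : ℕ => T (n : ZMod p))).card = (univ.filter T).card := by
  refine card_nbij' (fun n => (n : ZMod p)) (fun x => x.val) ?_ ?_ ?_ ?_
  · intro n hn
    rw [mem_coe, mem_filter] at hn
    rw [mem_coe, mem_filter]
    exact ⟨mem_univ _, hn.2⟩
  · intro x hx
    rw [mem_coe, mem_filter] at hx
    rw [mem_coe, mem_filter, mem_range]
    refine ⟨ZMod.val_lt x, ?_⟩
    rw [ZMod.natCast_zmod_val]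
    exact hx.2
  · intro n hn
    rw [mem_coe, mem_filter, mem_range] at hn
    exact ZMod.val_cast_of_lt hn.1
  · intro x _
    exact ZMod.natCast_zmod_val x

lemma dvd_eval_iff (P : ℤ[X]) (p : ℕ) (a : ℤ) :
    (p : ℤ) ∣ P.eval a ↔ (P.map (Int.castRingHom (ZMod p))).eval (a : ZMod p) = 0 := by
  rw [Polynomial.eval_intCast_map, eq_intCast, Int.cast_id, ZMod.intCast_zmod_eq_zero_iff_dvd]

open Classical in
lemma nz_eq (P : ℤ[X]) (p : ℕ) [NeZero p] :
    nz P p = (univ.filter (fun x : ZMod p =>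
      (P.map (Int.castRingHom (ZMod p))).eval x = 0)).card := by
  refine Eq.trans ?_ (card_range p (fun x : ZMod p =>
    (P.map (Int.castRingHom (ZMod p))).eval x = 0))
  unfold nz
  refine congrArg Finset.card (filter_congr fun n _ => ?_)
  rw [dvd_eval_iff, Int.cast_natCast]

open Classical in
/-- number of the forbidden classes -/
lemma nu_eq {J : Type} [Fintype J] [DecidableEq J] (P : J → ℤ[X]) (p : ℕ) (hp : p.Prime)
    (r m : ℤ) (hm : ¬ (p : ℤ) ∣ m)
    (hd : ∀ j l, j ≠ l → ∀ x : ℤ, ¬ ((p : ℤ) ∣ (P j).eval x ∧ (p : ℤ) ∣ (P l).eval x))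
    (Q : ℕ → ℕ → Prop) (hQ : ∀ n, Q p n ↔ ∃ j, (p : ℤ) ∣ (P j).eval (r + m * ((n : ℤ) - 1))) :
    Pool.Agent.H373R2.T7.nuB Q p = ∑ j, nz (P j) p := by
  have : Fact p.Prime := ⟨hp⟩
  have hm' : (m : ZMod p) ≠ 0 := fun h => hm ((ZMod.intCast_zmod_eq_zero_iff_dvd _ _).1 h)
  let T : J → ZMod p → Prop := fun j x => ((P j).map (Int.castRingHom (ZMod p))).eval x = 0
  have h1 : Pool.Agent.H373R2.T7.nuB Q p =
      (univ.filter (fun x : ZMod p => ∃ j, T j ((r : ZMod p) + m * (x - 1)))).card := by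
    refine Eq.trans ?_ (card_range p (fun x : ZMod p => ∃ j, T j ((r : ZMod p) + m * (x - 1))))
    unfold Pool.Agent.H373R2.T7.nuB
    refine congrArg Finset.card (filter_congr fun n _ => ?_)
    rw [hQ]
    refine exists_congr fun j => ?_
    rw [dvd_eval_iff]
    push_cast
    rfl
  have h2 : (univ.filter (fun x : ZMod p => ∃ j, T j ((r : ZMod p) + m * (x - 1)))).card =
      (univ.filter (fun x : ZMod p => ∃ j, T j x)).card := by
    refine card_nbij' (fun x => (r : ZMod p) + m * (x - 1)) (fun x => (x - r) / m + 1) ?_ ?_ ?_ ?_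
    · intro x hx
      rw [mem_coe, mem_filter] at hx
      rw [mem_coe, mem_filter]
      exact ⟨mem_univ _, hx.2⟩
    · intro x hx
      rw [mem_coe, mem_filter] at hx
      rw [mem_coe, mem_filter]
      refine ⟨mem_univ _, ?_⟩
      have e : (r : ZMod p) + m * ((x - r) / m + 1 - 1) = x := by
        field_simp
        ring
      rw [e]
      exact hx.2
    · intro x _
      show ((r : ZMod p) + m * (x - 1) - r) / m + 1 = x
      field_simp
      ring
    · intro x _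
      show (r : ZMod p) + m * ((x - r) / m + 1 - 1) = x
      field_simp
      ring
  have h3 : (univ.filter (fun x : ZMod p => ∃ j, T j x)) =
      univ.biUnion (fun j => univ.filter (fun x : ZMod p => T j x)) := by
    ext x
    simp
  rw [h1, h2, h3, card_biUnion]
  · exact sum_congr rfl fun j _ => (nz_eq (P j) p).symm
  · intro j _ l _ hjl
    rw [Function.onFun, disjoint_left]
    intro x hx hx'
    rw [mem_filter] at hx hx'
    refine hd j l hjl (x.val : ℤ) ⟨?_, ?_⟩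
    · rw [dvd_eval_iff, Int.cast_natCast, ZMod.natCast_zmod_val]
      exact hx.2
    · rw [dvd_eval_iff, Int.cast_natCast, ZMod.natCast_zmod_val]
      exact hx'.2

/-! ### the sieving condition -/

/-- the sieving condition -/
def QM {J : Type} (P : J → ℤ[X]) (z y : ℕ) (r : ℤ) (m M : ℕ) (p n : ℕ) : Prop :=
  p ∈ PS z y ∧ ¬ p ∣ M ∧ ∃ j, (p : ℤ) ∣ (P j).eval (r + m * ((n : ℤ) - 1))

lemma QM_per {J : Type} (P : J → ℤ[X]) (z y : ℕ) (r : ℤ) (m M : ℕ) (p n : ℕ) :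
    QM P z y r m M p n ↔ QM P z y r m M p (n % p) := by
  unfold QM
  refine and_congr_right fun _ => and_congr_right fun _ => exists_congr fun j => ?_
  have h : (n : ℤ) = ((n % p : ℕ) : ℤ) + (p : ℤ) * ((n / p : ℕ) : ℤ) := by
    exact_mod_cast (Nat.mod_add_div n p).symm
  refine Int.dvd_iff_dvd_of_dvd_sub ?_
  refine dvd_trans ?_ (Polynomial.sub_dvd_eval_sub _ _ (P j))
  refine ⟨(m : ℤ) * ((n / p : ℕ) : ℤ), ?_⟩
  linear_combination (m : ℤ) * h

open Classical in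
lemma count_le {J : Type} [Fintype J] [DecidableEq J] (P : J → ℤ[X]) (z y X m M r : ℕ)
    (_hm : 0 < m) :
    ((Icc 1 X).filter (fun t : ℕ => t ≡ r [MOD m] ∧ ∀ p ∈ PS z y, ¬ p ∣ M →
      ∀ j, ¬ (p : ℤ) ∣ (P j).eval (t : ℤ))).card ≤
      ((Icc 1 (X / m + 1)).filter
        (fun n : ℕ => ∀ p ∈ Pool.Agent.H373R2.T7.pz y,
          ¬ QM P z y ((r % m : ℕ) : ℤ) m M p n)).card := by
  apply card_le_card_of_injOn (fun t => t / m + 1)
  · intro t ht
    have ht' := Finset.mem_coe.1 ht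
    have htX := mem_Icc.1 (mem_filter.1 ht').1
    obtain ⟨hmod, hnd⟩ := (mem_filter.1 ht').2
    rw [Finset.mem_coe, mem_filter, mem_Icc]
    refine ⟨⟨Nat.le_add_left 1 _, Nat.succ_le_succ (Nat.div_le_div_right htX.2)⟩, fun p _ hQ => ?_⟩
    obtain ⟨hpPS, hpm, j, hj⟩ := hQ
    have e : ((r % m : ℕ) : ℤ) + (m : ℤ) * (((t / m + 1 : ℕ) : ℤ) - 1) = (t : ℤ) := by
      have h1 : t % m = r % m := hmod
      rw [← h1]
      have := Nat.mod_add_div t m
      push_cast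
      zify at this
      linarith
    rw [e] at hj
    exact hnd p hpPS hpm j hj
  · intro a ha b hb hab
    have ha' : a % m = r % m := (mem_filter.1 (Finset.mem_coe.1 ha)).2.1
    have hb' : b % m = r % m := (mem_filter.1 (Finset.mem_coe.1 hb)).2.1
    simp only at hab
    have h1 : a / m = b / m := by omega
    rw [← Nat.mod_add_div a m, ← Nat.mod_add_div b m, ha', hb', h1]

lemma prod_le' (c z : ℕ) (hz : 2 * c + 2 ≤ z) (ν : ℕ → ℕ) (hν : ∀ p, ν p ≤ c) (g : ℕ) (C1 : ℝ)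
    (h : ∀ y : ℕ, z < y → (g : ℝ) * Real.log (Real.log y) - C1 ≤
      ∑ p ∈ PS z y, ((ν p : ℕ) : ℝ) / p) (y : ℕ) (hy : 3 ≤ y) (hzy : z < y) :
    ∏ p ∈ PS z y, (1 - (ν p : ℝ) / p) ≤ Real.exp C1 / (Real.log y) ^ g := by
  have hyr : (3 : ℝ) ≤ y := by exact_mod_cast hy
  have hl1 : 1 < Real.log y := by
    rw [Real.lt_log_iff_exp_lt (by linarith)]
    have := Real.exp_one_lt_d9
    linarith
  have h1 : ∏ p ∈ PS z y, (1 - (ν p : ℝ) / p) ≤ ∏ p ∈ PS z y, Real.exp (-((ν p : ℝ) / p)) := by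
    apply prod_le_prod
    · intro p hp
      have hp' := (Pool.Agent.W21.RK.mem_PS.1 hp).1.1
      have hp0 : (0 : ℝ) < p := by exact_mod_cast (Pool.Agent.W21.RK.mem_PS.1 hp).2.pos
      have hcp : (ν p : ℝ) ≤ p := by
        have := hν p
        exact_mod_cast (by omega : ν p ≤ p)
      rw [sub_nonneg, div_le_one hp0]
      exact hcp
    · intro p _
      have := Real.add_one_le_exp (-((ν p : ℝ) / p))
      linarith
  refine h1.trans ?_
  rw [← Real.exp_sum, sum_neg_distrib]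
  have h4 : Real.log y ^ g = Real.exp (g * Real.log (Real.log y)) := by
    rw [← Real.log_pow, Real.exp_log (by positivity)]
  rw [h4, ← Real.exp_sub]
  apply Real.exp_le_exp.2
  have := h y hzy
  linarith

set_option maxHeartbeats 1000000 in
/-- SVE: upper bound sieve for the values of polynomials in a residue class. -/
theorem sve : Pool.Agent.W307.QF.SVE := by
  classical
  intro J _ _ rj c z C1' hrc hz hsum
  obtain ⟨g, hg⟩ : ∃ g, g = Fintype.card J := ⟨_, rfl⟩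
  rw [← hg] at hsum
  obtain ⟨ν, hν⟩ : ∃ ν : ℕ → ℕ, ∀ p, ν p = ∑ j, rj j p := ⟨_, fun p => rfl⟩
  have hνc : ∀ p, ν p ≤ c := fun p => (hν p).le.trans (hrc p)
  obtain ⟨K', x0', hK', hF⟩ := Pool.Agent.H373R2.T7.sys_fund (c + 1) (by omega) 1 one_pos
  obtain ⟨C1, hC1, hP⟩ : ∃ C : ℝ, 0 < C ∧ ∀ y : ℕ, 3 ≤ y → z < y →
      ∏ p ∈ PS z y, (1 - (ν p : ℝ) / p) ≤ C / (Real.log y) ^ g := by
    refine ⟨Real.exp C1', Real.exp_pos _, fun y hy hzy => ?_⟩
    refine prod_le' c z hz ν hνc g C1' (fun y hy => ?_) y hy hzy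
    refine (hsum y hy).trans (le_of_eq ?_)
    refine sum_congr rfl fun p _ => ?_
    rw [hν]
  refine ⟨4 * C1 + 1, 2 * (K' + g), max x0' 3, by positivity, by omega,
    fun X y hy hzy hyX P m M r hm1 hmM hM0 hmX4 hBg => ?_⟩
  rw [← hg]
  have hy0 : x0' ≤ y := (le_max_left _ _).trans hy
  have hy3 : 3 ≤ y := (le_max_right _ _).trans hy
  have hmpos : 0 < m := hm1
  have hm0 : m ≠ 0 := hmpos.ne'
  have hr := count_le P z y X m M r hmpos
  have hnu : ∀ p ∈ PS z y, ¬ p ∣ M →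
      Pool.Agent.H373R2.T7.nuB (QM P z y ((r % m : ℕ) : ℤ) m M) p = ν p := by
    intro p hp hpm
    rw [nu_eq P p (Pool.Agent.W21.RK.mem_PS.1 hp).2 ((r % m : ℕ) : ℤ) (m : ℤ)
      (fun h => hpm ((Int.natCast_dvd_natCast.1 h).trans hmM)) (hBg p hp hpm).2
      (QM P z y ((r % m : ℕ) : ℤ) m M) ?_, hν]
    · exact sum_congr rfl fun j _ => (hBg p hp hpm).1 j
    · intro n
      unfold QM
      exact ⟨fun h => h.2.2, fun h => ⟨hp, hpm, h⟩⟩
  have hnu0 : ∀ p, ¬ (p ∈ PS z y ∧ ¬ p ∣ M) →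
      Pool.Agent.H373R2.T7.nuB (QM P z y ((r % m : ℕ) : ℤ) m M) p = 0 := by
    intro p hp
    unfold Pool.Agent.H373R2.T7.nuB
    rw [card_eq_zero, filter_eq_empty_iff]
    intro n _ hn
    exact hp ⟨hn.1, hn.2.1⟩
  have hPer : Pool.Agent.H373R2.T7.PerB (QM P z y ((r % m : ℕ) : ℤ) m M) (c + 1) := by
    refine ⟨fun p n => QM_per P z y _ m M p n, fun p _ => ?_⟩
    by_cases h : p ∈ PS z y ∧ ¬ p ∣ M
    · rw [hnu p h.1 h.2]
      exact (hνc p).trans (Nat.le_succ c)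
    · rw [hnu0 p h]
      exact Nat.zero_le _
  have hfund := hF (y ^ K') y hy0 le_rfl (QM P z y ((r % m : ℕ) : ℤ) m M) hPer (X / m + 1)
  have hprod : ∏ p ∈ Pool.Agent.H373R2.T7.pz y,
      (1 - ((Pool.Agent.H373R2.T7.nuB (QM P z y ((r % m : ℕ) : ℤ) m M) p : ℕ) : ℝ) / p) =
      ∏ p ∈ (PS z y).filter (fun p => ¬ p ∣ M), (1 - (ν p : ℝ) / p) := by
    have h1 : ∏ p ∈ (PS z y).filter (fun p => ¬ p ∣ M),
        (1 - ((Pool.Agent.H373R2.T7.nuB (QM P z y ((r % m : ℕ) : ℤ) m M) p : ℕ) : ℝ) / p) =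
        ∏ p ∈ Pool.Agent.H373R2.T7.pz y,
      (1 - ((Pool.Agent.H373R2.T7.nuB (QM P z y ((r % m : ℕ) : ℤ) m M) p : ℕ) : ℝ) / p) := by
      apply prod_subset
      · intro p hp
        rw [mem_filter, Pool.Agent.W21.RK.mem_PS] at hp
        exact Pool.Agent.H373R2.T7.mem_pz.2 ⟨hp.1.1.2, hp.1.2⟩
      · intro p _ hp
        rw [mem_filter] at hp
        rw [hnu0 p hp]
        simp
    rw [← h1]
    refine prod_congr rfl fun p hp => ?_
    rw [mem_filter] at hp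
    rw [hnu p hp.1 hp.2]
  rw [hprod] at hfund
  obtain ⟨A, hA⟩ : ∃ A : ℝ, A = ∏ p ∈ (PS z y).filter (fun p => ¬ p ∣ M), (1 - (ν p : ℝ) / p) :=
    ⟨_, rfl⟩
  obtain ⟨B, hB⟩ : ∃ B : ℝ, B = ∏ p ∈ M.primeFactors.filter (fun p => p ∈ PS z y),
    (1 - (ν p : ℝ) / p) := ⟨_, rfl⟩
  obtain ⟨D, hD⟩ : ∃ D : ℝ, D = ∏ p ∈ M.primeFactors.filter (fun p => p ∈ PS z y),
    ((p : ℝ) / ((p : ℝ) - c)) := ⟨_, rfl⟩
  have hzc : ∀ p ∈ PS z y, (c : ℝ) + 1 ≤ p := by
    intro p hp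
    have h1 := (Pool.Agent.W21.RK.mem_PS.1 hp).1.1
    exact_mod_cast (by omega : c + 1 ≤ p)
  have hνr : ∀ p, (ν p : ℝ) ≤ c := fun p => by exact_mod_cast hνc p
  have hfpos : ∀ p ∈ PS z y, 0 < 1 - (ν p : ℝ) / p := by
    intro p hp
    have h1 := hzc p hp
    have h2 := hνr p
    have hp0 : (0 : ℝ) < p := by exact_mod_cast (Pool.Agent.W21.RK.mem_PS.1 hp).2.pos
    rw [sub_pos, div_lt_one hp0]
    linarith
  have hApos : 0 < A := by
    rw [hA]; exact prod_pos fun p hp => hfpos p (mem_filter.1 hp).1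
  have hBpos : 0 < B := by
    rw [hB]; exact prod_pos fun p hp => hfpos p (mem_filter.1 hp).2
  have hAB : A * B = ∏ p ∈ PS z y, (1 - (ν p : ℝ) / p) := by
    have h1 : M.primeFactors.filter (fun p => p ∈ PS z y) = (PS z y).filter (fun p => ¬ ¬ p ∣ M) := by
      ext p
      rw [mem_filter, mem_filter, not_not]
      constructor
      · rintro ⟨hp, hp2⟩
        exact ⟨hp2, Nat.dvd_of_mem_primeFactors hp⟩
      · rintro ⟨h2, h3⟩
        exact ⟨Nat.mem_primeFactors.2 ⟨(Pool.Agent.W21.RK.mem_PS.1 h2).2, h3, hM0⟩, h2⟩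
    rw [hA, hB, h1]
    exact prod_filter_mul_prod_filter_not _ _ _
  have hDB : 1 ≤ D * B := by
    rw [hD, hB, ← prod_mul_distrib]
    have h0 : ∀ p ∈ M.primeFactors.filter (fun p => p ∈ PS z y),
        (1 : ℝ) ≤ (p : ℝ) / ((p : ℝ) - c) * (1 - (ν p : ℝ) / p) := by
      intro p hp
      have h1 := hzc p (mem_filter.1 hp).2
      have hp0 : (0 : ℝ) < p := by
        exact_mod_cast (Pool.Agent.W21.RK.mem_PS.1 (mem_filter.1 hp).2).2.pos
      have h2 : 0 < (p : ℝ) - c := by linarith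
      have h3 : (p : ℝ) / ((p : ℝ) - c) * (1 - (ν p : ℝ) / p) =
          ((p : ℝ) - ν p) / ((p : ℝ) - c) := by
        field_simp
      rw [h3, le_div_iff₀ h2]
      have := hνr p
      linarith
    calc (1 : ℝ) = ∏ p ∈ M.primeFactors.filter (fun p => p ∈ PS z y), (1 : ℝ) := by
          rw [prod_const_one]
      _ ≤ _ := prod_le_prod (fun _ _ => zero_le_one) h0
  have hD1 : 1 ≤ D := by
    rw [hD]
    have h1 : ∀ p ∈ M.primeFactors.filter (fun p => p ∈ PS z y),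
        (1 : ℝ) ≤ (p : ℝ) / ((p : ℝ) - c) := by
      intro p hp
      have h1 := hzc p (mem_filter.1 hp).2
      have h2 : 0 < (p : ℝ) - c := by linarith
      rw [le_div_iff₀ h2]
      have : (0 : ℝ) ≤ c := Nat.cast_nonneg c
      linarith
    calc (1 : ℝ) = ∏ p ∈ M.primeFactors.filter (fun p => p ∈ PS z y), (1 : ℝ) := by
          rw [prod_const_one]
      _ ≤ _ := prod_le_prod (fun _ _ => zero_le_one) h1
  have hDpos : 0 < D := by linarith
  have hAle : A ≤ (C1 / (Real.log y) ^ g) * D := by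
    have h1 : A ≤ (A * B) * D := by
      calc A = A * 1 := (mul_one _).symm
        _ ≤ A * (D * B) := mul_le_mul_of_nonneg_left hDB hApos.le
        _ = _ := by ring
    refine h1.trans ?_
    rw [hAB]
    exact mul_le_mul_of_nonneg_right (hP y hy3 hzy) hDpos.le
  have hyr : (3 : ℝ) ≤ y := by exact_mod_cast hy3
  have hl1 : 1 < Real.log y := by
    rw [Real.lt_log_iff_exp_lt (by linarith)]
    have := Real.exp_one_lt_d9
    linarith
  have hly : Real.log y ≤ y := by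
    have := Real.log_le_sub_one_of_pos (by linarith : (0 : ℝ) < y)
    linarith
  have hLpos : 0 < (Real.log y) ^ g := by positivity
  have hmX : m * y ^ (K' + g) ≤ X := by
    have h1 : (m * y ^ (K' + g)) ^ 4 ≤ X ^ 4 := by
      calc (m * y ^ (K' + g)) ^ 4 = m ^ 4 * (y ^ (K' + g)) ^ 4 := by rw [mul_pow]
        _ ≤ m ^ 4 * (y ^ (K' + g)) ^ 6 := by
          apply Nat.mul_le_mul_left
          exact Nat.pow_le_pow_right (pow_pos (by omega) _) (by norm_num)
        _ = m ^ 4 * (y ^ (2 * (K' + g))) ^ 3 := by ring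
        _ ≤ X * X ^ 3 := Nat.mul_le_mul hmX4 (Nat.pow_le_pow_left hyX 3)
        _ = X ^ 4 := by ring
    exact (Nat.pow_le_pow_iff_left (by norm_num)).1 h1
  have hmX' : m ≤ X := by
    refine le_trans ?_ hmX
    exact Nat.le_mul_of_pos_right _ (pow_pos (by omega) _)
  have hmr : (0 : ℝ) < m := by exact_mod_cast hmpos
  have hcnt : (((Icc 1 X).filter (fun t : ℕ => t ≡ r [MOD m] ∧ ∀ p ∈ PS z y, ¬ p ∣ M →
      ∀ j, ¬ (p : ℤ) ∣ (P j).eval (t : ℤ))).card : ℝ) ≤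
      2 * (((X / m + 1 : ℕ) : ℝ) * A) + √((y ^ K' : ℕ) : ℝ) := by
    have h1 : (((Icc 1 X).filter (fun t : ℕ => t ≡ r [MOD m] ∧ ∀ p ∈ PS z y, ¬ p ∣ M →
        ∀ j, ¬ (p : ℤ) ∣ (P j).eval (t : ℤ))).card : ℝ) ≤
      (((Icc 1 (X / m + 1)).filter
        (fun n : ℕ => ∀ p ∈ Pool.Agent.H373R2.T7.pz y,
          ¬ QM P z y ((r % m : ℕ) : ℤ) m M p n)).card : ℝ) := by
      exact_mod_cast hr
    have h2 := (abs_le.1 hfund).2
    rw [one_mul, ← hA] at h2
    linarith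
  have hX' : ((X / m + 1 : ℕ) : ℝ) ≤ 2 * (X / m) := by
    have h1 : (X / m + 1) * m ≤ 2 * X := by
      have := Nat.div_mul_le_self X m
      rw [add_mul, one_mul]
      omega
    have h2 : ((X / m + 1 : ℕ) : ℝ) * m ≤ 2 * X := by exact_mod_cast h1
    rw [← mul_div_assoc, le_div_iff₀ hmr]
    exact h2
  have hsq : √((y ^ K' : ℕ) : ℝ) ≤ (X / m) * D / (Real.log y) ^ g := by
    have h1 : (1 : ℝ) ≤ ((y ^ K' : ℕ) : ℝ) := by
      exact_mod_cast Nat.one_le_iff_ne_zero.2 (pow_ne_zero _ (by omega))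
    have h2 : √((y ^ K' : ℕ) : ℝ) ≤ ((y ^ K' : ℕ) : ℝ) := by
      rw [Real.sqrt_le_left (by linarith)]
      nlinarith
    refine h2.trans ?_
    rw [le_div_iff₀ hLpos]
    have h3 : (Real.log y) ^ g ≤ (y : ℝ) ^ g := pow_le_pow_left₀ (by linarith) hly _
    have h4 : (m : ℝ) * (y : ℝ) ^ (K' + g) ≤ X := by exact_mod_cast hmX
    have h5 : (y : ℝ) ^ (K' + g) ≤ X / m := by
      rw [le_div_iff₀ hmr, mul_comm]
      exact h4
    push_cast
    calc (y : ℝ) ^ K' * (Real.log y) ^ g ≤ (y : ℝ) ^ K' * (y : ℝ) ^ g :=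
          mul_le_mul_of_nonneg_left h3 (by positivity)
      _ = (y : ℝ) ^ (K' + g) := by rw [pow_add]
      _ ≤ X / m := h5
      _ = (X / m) * 1 := (mul_one _).symm
      _ ≤ (X / m) * D := mul_le_mul_of_nonneg_left hD1 (by positivity)
  have hmain : 2 * (((X / m + 1 : ℕ) : ℝ) * A) ≤ 4 * C1 * (X / m) * D / (Real.log y) ^ g := by
    calc 2 * (((X / m + 1 : ℕ) : ℝ) * A) ≤
        2 * ((2 * (X / m)) * ((C1 / (Real.log y) ^ g) * D)) := by gcongr
      _ = _ := by ring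
  rw [← hD]
  calc (((Icc 1 X).filter (fun t : ℕ => t ≡ r [MOD m] ∧ ∀ p ∈ PS z y, ¬ p ∣ M →
      ∀ j, ¬ (p : ℤ) ∣ (P j).eval (t : ℤ))).card : ℝ)
      ≤ 2 * (((X / m + 1 : ℕ) : ℝ) * A) + √((y ^ K' : ℕ) : ℝ) := hcnt
    _ ≤ 4 * C1 * (X / m) * D / (Real.log y) ^ g + (X / m) * D / (Real.log y) ^ g :=
        add_le_add hmain hsq
    _ = (4 * C1 + 1) * (X / m) * D / (Real.log y) ^ g := by ring

end Pool.Agent.W565.QF.SVE
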